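import Mathlib
import Pool.Agent.DetCnt.Param
import Pool.Agent.DetCnt.Upper
import Pool.Agent.DetCnt.Near2

set_option autoImplicit false

/-!
# MP_ef01bd_co, Q2: the numbers `N_n(v)` below, above and far above the typical size

Definitions (`borderedMatrix`, `detSpectrum`, `detCount`): `Pool/Agent/TopDet/Defs.lean`.
-/

open Matrix

namespace Pool.Agent.Results.MP_ef01bd_co.Counts

open Pool.Agent.TopDet Pool.Agent.DetSpec

lemma bordered_zero {n : ℕ} (R : Fin (n + 1) → (Fin n → Bool)) (i : Fin (n + 1)) :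
    borderedMatrix R i 0 = 1 := rfl

/-- Every element of `S_n` is the absolute value of a determinant of a binary matrix of
order `n`. -/
lemma matrix_of_mem {n : ℕ} (v : ℕ) (hv : v ∈ detSpectrum n) :
    ∃ A : Matrix (Fin n) (Fin n) ℤ, IsBin A ∧ A.det.natAbs = v := by
  obtain ⟨R, -, hR⟩ := hv
  -- subtract the first row from the others
  let M : Matrix (Fin (n + 1)) (Fin (n + 1)) ℤ := Matrix.of fun i j =>
    Fin.cases (borderedMatrix R 0 j)
      (fun i' => borderedMatrix R i'.succ j - borderedMatrix R 0 j) i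
  have h1 : (borderedMatrix R).det = M.det := by
    refine Matrix.det_eq_of_forall_row_eq_smul_add_const
      (fun i : Fin (n + 1) => Fin.cases (0 : ℤ) (fun _ => 1) i) 0 rfl ?_
    intro i j
    refine Fin.cases ?_ (fun i' => ?_) i
    · change borderedMatrix R 0 j = borderedMatrix R 0 j + 0 * borderedMatrix R 0 j
      ring
    · change borderedMatrix R i'.succ j =
        (borderedMatrix R i'.succ j - borderedMatrix R 0 j) + 1 * borderedMatrix R 0 j
      ring
  let T : Matrix (Fin n) (Fin n) ℤ := Matrix.of fun i k =>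
    (if R i.succ k then (1 : ℤ) else 0) - (if R 0 k then 1 else 0)
  have h2 : M.det = T.det := by
    rw [Matrix.det_succ_column_zero, Fin.sum_univ_succ]
    have h3 : ∀ i : Fin n, M i.succ 0 = 0 := fun i => by
      change borderedMatrix R i.succ 0 - borderedMatrix R 0 0 = 0
      rw [bordered_zero, bordered_zero, sub_self]
    have h4 : M 0 0 = 1 := rfl
    have h5 : M.submatrix (Fin.succAbove 0) Fin.succ = T := by
      ext i k
      rfl
    rw [h4, h5]
    simp [h3]
  let sg : Fin n → ℤ := fun k => if R 0 k then -1 else 1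
  let B : Matrix (Fin n) (Fin n) ℤ := Matrix.of fun i k =>
    if R i.succ k = R 0 k then 0 else 1
  have h6 : T = B * Matrix.diagonal sg := by
    ext i k
    rw [Matrix.mul_diagonal]
    change (if R i.succ k then (1 : ℤ) else 0) - (if R 0 k then 1 else 0) =
      (if R i.succ k = R 0 k then 0 else 1) * (if R 0 k then -1 else 1)
    cases R i.succ k <;> cases R 0 k <;> simp
  have h7 : (∏ k, sg k).natAbs = 1 := by
    refine Finset.prod_induction sg (fun z : ℤ => z.natAbs = 1) ?_ rfl ?_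
    · intro a b ha hb
      rw [Int.natAbs_mul, ha, hb]
    · intro k _
      change (if R 0 k then (-1 : ℤ) else 1).natAbs = 1
      split_ifs <;> rfl
  refine ⟨B, ?_, ?_⟩
  · intro i k
    change (if R i.succ k = R 0 k then (0 : ℤ) else 1) = 0 ∨ _
    by_cases h : R i.succ k = R 0 k
    · exact Or.inl (if_pos h)
    · exact Or.inr (if_neg h)
  · rw [← hR, h1, h2, h6, Matrix.det_mul, Matrix.det_diagonal, Int.natAbs_mul, h7, mul_one]

/-- Many sets for every value below `exp (-ε n) max S_n`. -/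
theorem near (ε : ℝ) (hε : 0 < ε) : ∃ (c : ℝ) (n₀ : ℕ), 0 < c ∧ ∀ n : ℕ, n₀ ≤ n →
    ∀ M ∈ detSpectrum n, ∀ v : ℕ, 1 ≤ v → (v : ℝ) ≤ Real.exp (-(ε * n)) * M →
      Real.exp (c * (n : ℝ) ^ 2) ≤ detCount n v := by
  set η : ℝ := min ε 1 / 16 with hη
  have hη0 : 0 < η := by positivity
  have hη1 : η ≤ 1 / 16 := by
    have := min_le_right ε 1
    rw [hη]; linarith
  have hηε : 16 * η ≤ ε := by
    have := min_le_left ε 1
    rw [hη]; linarith
  obtain ⟨N₀, hN₀⟩ := DetCnt.log_le_of_large (η / 100) (by positivity)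
  refine ⟨η / 8, max N₀ 61504, by positivity, fun n hn M hM v hv hvM => ?_⟩
  refine DetCnt.near_main hη0 hη1 ((le_max_right _ _).trans hn)
    (hN₀ n ((le_max_left _ _).trans hn)) v (by omega) ?_
  obtain ⟨A, hA, hdet⟩ := matrix_of_mem M hM
  have h1 : (M : ℝ) ≤ maxDet n := by
    rw [← hdet]
    exact_mod_cast le_maxDet A hA
  have hn0 : (0 : ℝ) ≤ n := Nat.cast_nonneg n
  have h2 : Real.exp (-(ε * n)) ≤ Real.exp (-(16 * (η * n))) := by
    apply Real.exp_le_exp.2
    have := mul_le_mul_of_nonneg_right hηε hn0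
    linarith
  calc (v : ℝ) ≤ Real.exp (-(ε * n)) * M := hvM
    _ ≤ Real.exp (-(16 * (η * n))) * maxDet n := by gcongr

/-- **The size of the numbers `N_n(v)`.**  Put `t_n = √(n!) / 2 ^ n` (for independent uniform
points of `{0,1}^n` the root mean square of the determinant is `√(n+1) t_n`).

* Below: for all `n ≥ 1` and `1 ≤ v ≤ t_n exp (-128 (log n)³)`,
  `N_n(v) ≥ exp (-128 n (log n)²) * C(2^n, n+1)`, and `C(2^n, n+1)` is the number of all sets.
* Above: for every `ε > 0` there are `c > 0` and `n₀` such that for all `n ≥ n₀` and all `v`,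
  `N_n(v) ≤ exp (-c n²) * C(2^n, n+1)` if `v ≥ exp (ε n) t_n`, and
  `N_n(v) ≥ exp (c n²)` if `1 ≤ v ≤ exp (-ε n) M` for some `M ∈ S_n`. -/
theorem result :
    (∀ n : ℕ, 1 ≤ n → ∀ v : ℕ, 1 ≤ v →
      (v : ℝ) ≤ √(n.factorial : ℝ) * (1 / 2) ^ n * Real.exp (-(128 * Real.log n ^ 3)) →
      Real.exp (-(128 * n * Real.log n ^ 2)) * ((2 ^ n).choose (n + 1) : ℝ) ≤ detCount n v) ∧
    ∀ ε : ℝ, 0 < ε → ∃ (c : ℝ) (n₀ : ℕ), 0 < c ∧ ∀ n : ℕ, n₀ ≤ n → ∀ v : ℕ,
      (Real.exp (ε * n) * (√(n.factorial : ℝ) * (1 / 2) ^ n) ≤ v →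
        (detCount n v : ℝ) ≤ Real.exp (-(c * (n : ℝ) ^ 2)) * ((2 ^ n).choose (n + 1) : ℝ)) ∧
      ∀ M ∈ detSpectrum n, 1 ≤ v → (v : ℝ) ≤ Real.exp (-(ε * n)) * M →
        Real.exp (c * (n : ℝ) ^ 2) ≤ detCount n v := by
  refine ⟨fun n hn v hv h => DetCnt.lower n hn v hv h, fun ε hε => ?_⟩
  obtain ⟨c₁, n₁, hc₁, h₁⟩ := DetCnt.upper ε hε
  obtain ⟨c₂, n₂, hc₂, h₂⟩ := near ε hε
  refine ⟨min c₁ c₂, max n₁ n₂, lt_min hc₁ hc₂, fun n hn v => ⟨fun h => ?_, ?_⟩⟩
  · refine (h₁ n ((le_max_left _ _).trans hn) v h).trans ?_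
    have e : min c₁ c₂ * (n : ℝ) ^ 2 ≤ c₁ * (n : ℝ) ^ 2 :=
      mul_le_mul_of_nonneg_right (min_le_left _ _) (by positivity)
    gcongr
  · intro M hM hv hvM
    refine le_trans ?_ (h₂ n ((le_max_right _ _).trans hn) M hM v hv hvM)
    apply Real.exp_le_exp.2
    exact mul_le_mul_of_nonneg_right (min_le_right _ _) (by positivity)

end Pool.Agent.Results.MP_ef01bd_co.Counts
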