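import Mathlib
import Pool.Agent.DetSpec.Main

set_option autoImplicit false

open Matrix

namespace Pool.Agent.Results.MP_ef01bd_co.NoGaps

/-- The `(n+1) × (n+1)` integer matrix `[1 : D]`: the rows of `D` are the points
`R 0, …, R n` of `{0,1}^n`, and a first column of ones is adjoined. -/
def borderedMatrix {n : ℕ} (R : Fin (n + 1) → (Fin n → Bool)) :
    Matrix (Fin (n + 1)) (Fin (n + 1)) ℤ :=
  Matrix.of fun i j => Fin.cases 1 (fun k => if R i k then 1 else 0) j

/-- The set `S_n` of the values `|det [1 : D_R]|`, where `R` runs over the `(n+1)`-element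
subsets of `{0,1}^n` (listed injectively as the rows of `D_R`). -/
def detSpectrum (n : ℕ) : Set ℕ :=
  {v | ∃ R : Fin (n + 1) → (Fin n → Bool), Function.Injective R ∧
    (borderedMatrix R).det.natAbs = v}

open Pool.Agent.DetSpec

lemma bordered_zero {n : ℕ} (R : Fin (n + 1) → (Fin n → Bool)) (i : Fin (n + 1)) :
    borderedMatrix R i 0 = 1 := rfl

lemma bordered_succ {n : ℕ} (R : Fin (n + 1) → (Fin n → Bool)) (i : Fin (n + 1)) (k : Fin n) :
    borderedMatrix R i k.succ = if R i k then 1 else 0 := rfl

/-- Nonzero determinants of binary matrices of order `n` lie in `S_n`. -/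
lemma mem_of_matrix {n : ℕ} (A : Matrix (Fin n) (Fin n) ℤ) (hA : IsBin A) (x : ℕ) (hx : x ≠ 0)
    (hdet : |A.det| = x) : x ∈ detSpectrum n := by
  obtain ⟨B, rfl⟩ := exists_matZ A hA
  let R : Fin (n + 1) → (Fin n → Bool) := Fin.cons (fun _ => false) B
  have h1 : (borderedMatrix R).det = (matZ B).det := by
    rw [Matrix.det_succ_row_zero, Fin.sum_univ_succ]
    have h2 : ∀ k : Fin n, borderedMatrix R 0 k.succ = 0 := fun k => rfl
    have h3 : (borderedMatrix R).submatrix Fin.succ (Fin.succAbove 0) = matZ B := by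
      ext i k
      rfl
    rw [h3, bordered_zero]
    simp [h2]
  refine ⟨R, ?_, ?_⟩
  · intro i i' hii
    by_contra hne
    have h0 : (borderedMatrix R).det = 0 := by
      refine Matrix.det_zero_of_row_eq hne ?_
      funext k
      refine Fin.cases rfl (fun k' => ?_) k
      rw [bordered_succ, bordered_succ, hii]
    rw [h1] at h0
    rw [h0] at hdet
    apply hx
    have : (0 : ℤ) = x := by simpa using hdet
    exact_mod_cast this.symm
  · rw [h1]
    have h4 := hdet
    rw [Int.abs_eq_natAbs] at h4
    exact_mod_cast h4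

/-- Every element of `S_n` is the absolute value of a determinant of a binary matrix of
order `n`. -/
lemma matrix_of_mem {n : ℕ} (v : ℕ) (hv : v ∈ detSpectrum n) :
    ∃ A : Matrix (Fin n) (Fin n) ℤ, IsBin A ∧ A.det.natAbs = v := by
  obtain ⟨R, -, hR⟩ := hv
  -- subtract the first row from the others
  let M : Matrix (Fin (n + 1)) (Fin (n + 1)) ℤ := Matrix.of fun i j =>
    Fin.cases (borderedMatrix R 0 j)
      (fun i' => borderedMatrix R i'.succ j - borderedMatrix R 0 j) i
  have h1 : (borderedMatrix R).det = M.det := by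
    refine Matrix.det_eq_of_forall_row_eq_smul_add_const
      (fun i : Fin (n + 1) => Fin.cases (0 : ℤ) (fun _ => 1) i) 0 rfl ?_
    intro i j
    refine Fin.cases ?_ (fun i' => ?_) i
    · change borderedMatrix R 0 j = borderedMatrix R 0 j + 0 * borderedMatrix R 0 j
      ring
    · change borderedMatrix R i'.succ j =
        (borderedMatrix R i'.succ j - borderedMatrix R 0 j) + 1 * borderedMatrix R 0 j
      ring
  let T : Matrix (Fin n) (Fin n) ℤ := Matrix.of fun i k =>
    (if R i.succ k then (1 : ℤ) else 0) - (if R 0 k then 1 else 0)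
  have h2 : M.det = T.det := by
    rw [Matrix.det_succ_column_zero, Fin.sum_univ_succ]
    have h3 : ∀ i : Fin n, M i.succ 0 = 0 := fun i => by
      change borderedMatrix R i.succ 0 - borderedMatrix R 0 0 = 0
      rw [bordered_zero, bordered_zero, sub_self]
    have h4 : M 0 0 = 1 := rfl
    have h5 : M.submatrix (Fin.succAbove 0) Fin.succ = T := by
      ext i k
      rfl
    rw [h4, h5]
    simp [h3]
  let sg : Fin n → ℤ := fun k => if R 0 k then -1 else 1
  let B : Matrix (Fin n) (Fin n) ℤ := Matrix.of fun i k =>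
    if R i.succ k = R 0 k then 0 else 1
  have h6 : T = B * Matrix.diagonal sg := by
    ext i k
    rw [Matrix.mul_diagonal]
    change (if R i.succ k then (1 : ℤ) else 0) - (if R 0 k then 1 else 0) =
      (if R i.succ k = R 0 k then 0 else 1) * (if R 0 k then -1 else 1)
    cases R i.succ k <;> cases R 0 k <;> simp
  have h7 : (∏ k, sg k).natAbs = 1 := by
    refine Finset.prod_induction sg (fun z : ℤ => z.natAbs = 1) ?_ rfl ?_
    · intro a b ha hb
      rw [Int.natAbs_mul, ha, hb]
    · intro k _
      change (if R 0 k then (-1 : ℤ) else 1).natAbs = 1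
      split_ifs <;> rfl
  refine ⟨B, ?_, ?_⟩
  · intro i k
    change (if R i.succ k = R 0 k then (0 : ℤ) else 1) = 0 ∨ _
    by_cases h : R i.succ k = R 0 k
    · exact Or.inl (if_pos h)
    · exact Or.inr (if_neg h)
  · rw [← hR, h1, h2, h6, Matrix.det_mul, Matrix.det_diagonal, Int.natAbs_mul, h7, mul_one]

/-- `0 ∈ S_n` for `n ≥ 3`. -/
lemma zero_mem {n : ℕ} (hn : 3 ≤ n) : 0 ∈ detSpectrum n := by
  obtain ⟨m, rfl⟩ : ∃ m, n = m + 1 := ⟨n - 1, by omega⟩
  have hcard : Fintype.card (Fin (m + 1 + 1)) ≤ Fintype.card (Fin m → Bool) := by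
    rw [Fintype.card_fin, Fintype.card_fun, Fintype.card_bool, Fintype.card_fin]
    have : ∀ k : ℕ, 2 ≤ k → k + 2 ≤ 2 ^ k := by
      intro k hk
      induction k, hk using Nat.le_induction with
      | base => norm_num
      | succ k hk ih => rw [pow_succ]; omega
    exact this m (by omega)
  obtain ⟨f⟩ := Function.Embedding.nonempty_of_card_le hcard
  refine ⟨fun i => Fin.cons false (f i), ?_, ?_⟩
  · intro i i' h
    exact f.injective (Fin.cons_injective2 h).2
  · rw [Int.natAbs_eq_zero]
    refine Matrix.det_eq_zero_of_column_eq_zero 1 (fun i => ?_)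
    rfl

/-- **No gaps below the top.** For every `n ≥ 3` and every `M ∈ S_n` (in particular for the
maximum `M` of `S_n`), all natural numbers up to `M * exp (-128 √n log n)` lie in `S_n`. -/
theorem result : ∀ n : ℕ, 3 ≤ n → ∀ M ∈ detSpectrum n, ∀ x : ℕ,
    (x : ℝ) ≤ M * Real.exp (-(128 * √n * Real.log n)) → x ∈ detSpectrum n := by
  intro n hn M hM x hx
  by_cases hx0 : x = 0
  · rw [hx0]; exact zero_mem hn
  obtain ⟨A, hA, hdet⟩ := matrix_of_mem M hM
  by_cases hN : 16384 ≤ n
  · obtain ⟨B, hB, hBdet⟩ := main_matrix n hN A hA x (by rw [hdet]; exact hx)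
    exact mem_of_matrix B hB x hx0 hBdet
  · exfalso
    push Not at hN
    have hnr : (3 : ℝ) ≤ n := by exact_mod_cast hn
    have hnpos : (0 : ℝ) < n := by linarith
    have hlog : 0 < Real.log n := Real.log_pos (by linarith)
    have h1 : (M : ℝ) ≤ (n : ℝ) ^ n := by
      have h2 := abs_det_le_factorial A hA
      rw [Fintype.card_fin] at h2
      have h3 : M ≤ n.factorial := by
        have : ((A.det.natAbs : ℕ) : ℤ) ≤ (n.factorial : ℤ) := by
          rw [Int.natCast_natAbs]; exact h2
        rw [hdet] at this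
        exact_mod_cast this
      have h4 : M ≤ n ^ n := h3.trans (Nat.factorial_le_pow n)
      exact_mod_cast h4
    have h5 : (n : ℝ) ^ n = Real.exp ((n : ℝ) * Real.log n) := by
      rw [Real.exp_nat_mul, Real.exp_log hnpos]
    have h6 : √(n : ℝ) < 128 := by
      rw [Real.sqrt_lt' (by norm_num)]
      have : (n : ℝ) < 16384 := by exact_mod_cast hN
      linarith
    have h7 : (n : ℝ) < 128 * √(n : ℝ) := by
      have h8 : √(n : ℝ) * √(n : ℝ) = n := Real.mul_self_sqrt hnpos.le
      have h9 : 0 < √(n : ℝ) := Real.sqrt_pos.2 hnpos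
      nlinarith
    have h10 : (x : ℝ) < 1 := by
      calc (x : ℝ) ≤ M * Real.exp (-(128 * √n * Real.log n)) := hx
        _ ≤ Real.exp ((n : ℝ) * Real.log n) * Real.exp (-(128 * √n * Real.log n)) := by
            rw [← h5]
            exact mul_le_mul_of_nonneg_right h1 (Real.exp_pos _).le
        _ = Real.exp ((n - 128 * √n) * Real.log n) := by
            rw [← Real.exp_add]; congr 1; ring
        _ < 1 := by
            rw [Real.exp_lt_one_iff]
            nlinarith
    have h11 : x < 1 := by exact_mod_cast h10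
    omega

end Pool.Agent.Results.MP_ef01bd_co.NoGaps
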