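import Pool.Agent.TopDet.CN
import Pool.Agent.TopDet.BN1
import Pool.Agent.TopDet.BN2
import Pool.Agent.TopDet.EIG
import Pool.Agent.TopDet.SCH
import Pool.Agent.TopDet.SC1
import Pool.Agent.TopDet.MXB
import Pool.Agent.TopDet.PAR
import Pool.Agent.TopDet.MIX
import Pool.Agent.TopDet.SAME
import Pool.Agent.TopDet.CMP
import Pool.Agent.TopDet.HD
import Pool.Agent.TopDet.CLS
import Pool.Agent.TopDet.CT1
import Pool.Agent.TopDet.CT2
import Pool.Agent.TopDet.CNT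

set_option autoImplicit false

/-!
# MP_ef01bd_co: the numbers of subsets with the two largest determinants
-/

namespace Pool.Agent.Results.MP_ef01bd_co.TopCounts

open Pool.Agent.TopDet

/-- Let `n + 1 = 4 m ≥ 12`. Then `N_n((2 m - 1) m ^ (2 m - 1)) = 16 m ^ 2 N_n(2 m ^ (2 m))`. -/
theorem result (m n : ℕ) (hm : 3 ≤ m) (hn : n + 1 = 4 * m) :
    detCount n ((2 * m - 1) * m ^ (2 * m - 1)) = 16 * m ^ 2 * detCount n (2 * m ^ (2 * m)) :=
  p_CNT p_CT1 (p_CT2 (p_CLS (p_MIX p_PAR (p_MXB p_EIG p_SCH p_SC1 p_BN1 p_BN2))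
    (p_SAME p_EIG p_CN) p_CMP p_HD) p_HD) m n hm hn

end Pool.Agent.Results.MP_ef01bd_co.TopCounts
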