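import Pool.Agent.TopDet.CN
import Pool.Agent.TopDet.BN1
import Pool.Agent.TopDet.BN2
import Pool.Agent.TopDet.EIG
import Pool.Agent.TopDet.SCH
import Pool.Agent.TopDet.SC1
import Pool.Agent.TopDet.MXB
import Pool.Agent.TopDet.PAR
import Pool.Agent.TopDet.MIX
import Pool.Agent.TopDet.SAME
import Pool.Agent.TopDet.CMP
import Pool.Agent.TopDet.HD
import Pool.Agent.TopDet.CLS
import Pool.Agent.TopDet.TRA
import Pool.Agent.TopDet.TOP

set_option autoImplicit false

/-!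
# MP_ef01bd_co: the top of the determinant spectrum in the orders `n + 1 = 4 m`
-/

namespace Pool.Agent.Results.MP_ef01bd_co.TopGap

open Pool.Agent.TopDet

/-- Let `n + 1 = 4 m ≥ 12`. If a Hadamard matrix of order `4 m` exists then the elements of `S_n`
which are at least `(2 m - 1) m ^ (2 m - 1)` are this number and `2 m ^ (2 m)`, otherwise there is
no such element. -/
theorem result (m n : ℕ) (hm : 3 ≤ m) (hn : n + 1 = 4 * m) :
    ((∃ B : Matrix (Fin (4 * m)) (Fin (4 * m)) ℤ, Had B) →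
      detSpectrum n ∩ Set.Ici ((2 * m - 1) * m ^ (2 * m - 1)) =
        {(2 * m - 1) * m ^ (2 * m - 1), 2 * m ^ (2 * m)}) ∧
    ((¬ ∃ B : Matrix (Fin (4 * m)) (Fin (4 * m)) ℤ, Had B) →
      detSpectrum n ∩ Set.Ici ((2 * m - 1) * m ^ (2 * m - 1)) = ∅) :=
  p_TOP (p_CLS (p_MIX p_PAR (p_MXB p_EIG p_SCH p_SC1 p_BN1 p_BN2)) (p_SAME p_EIG p_CN) p_CMP p_HD)
    p_HD p_TRA m n hm hn

end Pool.Agent.Results.MP_ef01bd_co.TopGap
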